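import Pool.Agent.Helper64.SPX.Spec

/-!
# SPX, part G1: the local equation
-/

set_option autoImplicit false

open MeasureTheory Filter Topology Set
open scoped InnerProductSpace ENNReal

namespace Pool.Agent.Helper97.SPX.G1

open Pool.Agent.Helper64.SPX

variable {ι : Type} [Fintype ι]

lemma inner_continuous (w : E ι) : Continuous (fun x : E ι => ⟪w, x⟫_ℝ) :=
  continuous_const.inner continuous_id

lemma body_closed (Q : HP ι) : IsClosed Q.body := by
  have : Q.body = ⋂ i, {x | ⟪Q.u i, x⟫_ℝ ≤ Q.h i} := by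
    ext x; simp [HP.body]
  rw [this]
  exact isClosed_iInter fun i => isClosed_le (inner_continuous _) continuous_const

/-- pointwise -/
lemma ev_iff (Q : HP ι) (y u : E ι) :
    ∀ᶠ k : ℕ in atTop, (y + ((1 : ℝ) / (k + 1)) • u ∈ Q.body ↔ (y ∈ Q.body ∧ u ∈ Q.cone y)) := by
  have h : ∀ i, ∀ᶠ k : ℕ in atTop, (⟪Q.u i, y + ((1 : ℝ) / (k + 1)) • u⟫_ℝ ≤ Q.h i ↔
      (⟪Q.u i, y⟫_ℝ ≤ Q.h i ∧ (⟪Q.u i, y⟫_ℝ = Q.h i → ⟪Q.u i, u⟫_ℝ ≤ 0))) := by
    intro i
    have ht : Tendsto (fun k : ℕ => ⟪Q.u i, y + ((1 : ℝ) / (k + 1)) • u⟫_ℝ) atTop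
        (𝓝 ⟪Q.u i, y⟫_ℝ) := by
      have h1 : Tendsto (fun k : ℕ => ((1 : ℝ) / (k + 1))) atTop (𝓝 0) :=
        tendsto_one_div_add_atTop_nhds_zero_nat
      have h2 : Tendsto (fun k : ℕ => ⟪Q.u i, y⟫_ℝ + ((1 : ℝ) / (k + 1)) * ⟪Q.u i, u⟫_ℝ) atTop
          (𝓝 (⟪Q.u i, y⟫_ℝ + 0 * ⟪Q.u i, u⟫_ℝ)) := tendsto_const_nhds.add (h1.mul_const _)
      rw [zero_mul, add_zero] at h2
      refine h2.congr fun k => ?_
      rw [inner_add_right, inner_smul_right]
    rcases lt_trichotomy ⟪Q.u i, y⟫_ℝ (Q.h i) with hlt | heq | hgt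
    · filter_upwards [ht.eventually (gt_mem_nhds hlt)] with k hk
      exact ⟨fun _ => ⟨hlt.le, fun h => absurd h hlt.ne⟩, fun _ => le_of_lt hk⟩
    · filter_upwards with k
      rw [inner_add_right, inner_smul_right, heq]
      have hk : (0 : ℝ) < 1 / (k + 1) := by positivity
      constructor
      · intro h
        refine ⟨le_rfl, fun _ => ?_⟩
        by_contra hc
        push Not at hc
        have := mul_pos hk hc
        linarith
      · rintro ⟨-, h⟩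
        have := mul_nonpos_of_nonneg_of_nonpos hk.le (h rfl)
        linarith
    · filter_upwards [ht.eventually (lt_mem_nhds hgt)] with k hk
      exact ⟨fun h => absurd h (not_le.2 hk), fun h => absurd h.1 (not_le.2 hgt)⟩
  filter_upwards [eventually_all.2 h] with k hk
  constructor
  · intro h
    exact ⟨fun i => ((hk i).1 (h i)).1, fun i hi => ((hk i).1 (h i)).2 hi⟩
  · rintro ⟨h1, h2⟩ i
    exact (hk i).2 ⟨h1 i, fun hi => h2 i hi⟩

lemma limit_eq (Q : HP ι) (hQ : Q.Good) (ν : Measure (E ι)) [IsLocallyFiniteMeasure ν] (p u : E ι)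
    (hu : ∀ i, ⟪Q.u i, u⟫_ℝ ≠ 0)
    (h1 : ∀ k : ℕ, ν {t | p + ((1 : ℝ) / (k + 1)) • u - t ∈ Q.body} = 1) :
    ν {t | p - t ∈ Q.body ∧ u ∈ Q.cone (p - t)} = 1 := by
  obtain ⟨hb, -, -⟩ := hQ
  obtain ⟨r, hr⟩ := hb.subset_closedBall (0 : E ι)
  have hmeas : ∀ k : ℕ, MeasurableSet {t : E ι | p + ((1 : ℝ) / (k + 1)) • u - t ∈ Q.body} := by
    intro k
    exact ((body_closed Q).preimage (continuous_const.sub continuous_id)).measurableSet
  have hB : ν (Metric.closedBall (0 : E ι) (‖p‖ + ‖u‖ + r)) ≠ ∞ :=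
    (isCompact_closedBall _ _).measure_lt_top.ne
  have hsub : ∀ k : ℕ, {t : E ι | p + ((1 : ℝ) / (k + 1)) • u - t ∈ Q.body} ⊆
      Metric.closedBall (0 : E ι) (‖p‖ + ‖u‖ + r) := by
    intro k t ht
    have h2 : ‖p + ((1 : ℝ) / (k + 1)) • u - t‖ ≤ r := by
      have := hr ht
      rwa [mem_closedBall_zero_iff] at this
    rw [mem_closedBall_zero_iff]
    have h3 : t = p + ((1 : ℝ) / (k + 1)) • u - (p + ((1 : ℝ) / (k + 1)) • u - t) := by abel
    have h4 : ‖((1 : ℝ) / (k + 1)) • u‖ ≤ ‖u‖ := by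
      rw [norm_smul, Real.norm_eq_abs, abs_of_nonneg (by positivity)]
      have : (1 : ℝ) / (k + 1) ≤ 1 := by
        rw [div_le_one (by positivity)]
        have : (0 : ℝ) ≤ k := Nat.cast_nonneg k
        linarith
      calc (1 : ℝ) / (k + 1) * ‖u‖ ≤ 1 * ‖u‖ := by gcongr
        _ = ‖u‖ := one_mul _
    calc ‖t‖ = ‖p + ((1 : ℝ) / (k + 1)) • u - (p + ((1 : ℝ) / (k + 1)) • u - t)‖ := by rw [← h3]
      _ ≤ ‖p + ((1 : ℝ) / (k + 1)) • u‖ + ‖p + ((1 : ℝ) / (k + 1)) • u - t‖ := norm_sub_le _ _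
      _ ≤ (‖p‖ + ‖((1 : ℝ) / (k + 1)) • u‖) + r := add_le_add (norm_add_le _ _) h2
      _ ≤ ‖p‖ + ‖u‖ + r := by linarith
  have hlim := tendsto_measure_of_tendsto_indicator (μ := ν)
    (A := {t : E ι | p - t ∈ Q.body ∧ u ∈ Q.cone (p - t)}) atTop hmeas
    Metric.isClosed_closedBall.measurableSet hB (Eventually.of_forall hsub) (by
      intro t
      filter_upwards [ev_iff Q (p - t) u] with k hk
      show p + ((1 : ℝ) / (k + 1)) • u - t ∈ Q.body ↔ p - t ∈ Q.body ∧ u ∈ Q.cone (p - t)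
      rw [← hk, show p + ((1 : ℝ) / (k + 1)) • u - t = p - t + ((1 : ℝ) / (k + 1)) • u by abel])
  have hconst : Tendsto (fun k : ℕ => ν {t | p + ((1 : ℝ) / (k + 1)) • u - t ∈ Q.body}) atTop
      (𝓝 1) := by
    simp only [h1]
    exact tendsto_const_nhds
  exact tendsto_nhds_unique hlim hconst

/-- G1 -/
theorem main : S_G1 := by
  intro ι _ Q hQ ν hν hx p u hu
  -- almost every `u`
  have hae : ∀ᵐ w : E ι, ∀ k : ℕ, ν {t | p + ((1 : ℝ) / (k + 1)) • w - t ∈ Q.body} = 1 := by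
    rw [ae_all_iff]
    intro k
    have hk : (1 : ℝ) / (k + 1) ≠ 0 := by positivity
    have hq : Measure.QuasiMeasurePreserving (fun w : E ι => p + ((1 : ℝ) / (k + 1)) • w)
        volume volume :=
      (measurePreserving_add_left (volume : Measure (E ι)) p).quasiMeasurePreserving.comp
        (Measure.quasiMeasurePreserving_smul (volume : Measure (E ι)) hk)
    exact hq.ae hx
  -- a good `w` with the signs of `u`
  let U : Set (E ι) := {w | ∀ i, 0 < ⟪Q.u i, u⟫_ℝ * ⟪Q.u i, w⟫_ℝ}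
  have hUo : IsOpen U := by
    have : U = ⋂ i, {w | 0 < ⟪Q.u i, u⟫_ℝ * ⟪Q.u i, w⟫_ℝ} := by ext x; simp [U]
    rw [this]
    exact isOpen_iInter_of_finite fun i =>
      isOpen_lt continuous_const (continuous_const.mul (inner_continuous _))
  have hUn : U.Nonempty := ⟨u, fun i => mul_self_pos.2 (hu i)⟩
  have hpos : 0 < volume U := hUo.measure_pos volume hUn
  obtain ⟨w, hwU, hw⟩ : ∃ w ∈ U, ∀ k : ℕ, ν {t | p + ((1 : ℝ) / (k + 1)) • w - t ∈ Q.body} = 1 := by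
    by_contra hc
    push Not at hc
    have hsub : U ⊆ {w | ¬ ∀ k : ℕ, ν {t | p + ((1 : ℝ) / (k + 1)) • w - t ∈ Q.body} = 1} := by
      intro w hw h
      obtain ⟨k, hk⟩ := hc w hw
      exact hk (h k)
    have := measure_mono_null hsub hae
    exact hpos.ne' this
  have hwne : ∀ i, ⟪Q.u i, w⟫_ℝ ≠ 0 := fun i h => by
    have := hwU i
    rw [h, mul_zero] at this
    exact lt_irrefl _ this
  have hcone : ∀ y : E ι, u ∈ Q.cone y ↔ w ∈ Q.cone y := by
    intro y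
    have key : ∀ i, ⟪Q.u i, u⟫_ℝ ≤ 0 ↔ ⟪Q.u i, w⟫_ℝ ≤ 0 := by
      intro i
      have h1 := hwU i
      rcases pos_and_pos_or_neg_and_neg_of_mul_pos h1 with ⟨h2, h3⟩ | ⟨h2, h3⟩
      · exact ⟨fun h => absurd h (not_le.2 h2), fun h => absurd h (not_le.2 h3)⟩
      · exact ⟨fun _ => h3.le, fun _ => h2.le⟩
    exact ⟨fun h i hi => (key i).1 (h i hi), fun h i hi => (key i).2 (h i hi)⟩
  have := limit_eq Q hQ ν p w hwne hw
  simpa only [hcone] using this

end Pool.Agent.Helper97.SPX.G1
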