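import Pool.Agent.Helper64.SPX.Spec

/-!
# SPX, part G3: locked facets
-/

set_option autoImplicit false

open MeasureTheory Filter Topology Set
open scoped InnerProductSpace ENNReal

namespace Pool.Agent.Helper97.SPX.G3

open Pool.Agent.Helper64.SPX

variable {ι : Type} [Fintype ι]

lemma inner_continuous (w : E ι) : Continuous (fun x : E ι => ⟪w, x⟫_ℝ) :=
  continuous_const.inner continuous_id

/-- generic vectors -/
lemma gen {N : ℕ} (w : Fin N → E ι) (U : Set (E ι)) (hU : IsOpen U) (hne : U.Nonempty) :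
    ∃ z ∈ U, ∀ k, w k ≠ 0 → ⟪w k, z⟫_ℝ ≠ 0 := by
  have hae : ∀ᵐ z : E ι, ∀ k, w k ≠ 0 → ⟪w k, z⟫_ℝ ≠ 0 := by
    rw [ae_all_iff]
    intro k
    by_cases hk : w k = 0
    · exact Eventually.of_forall fun z h => absurd hk h
    · have hs : volume (((Submodule.span ℝ {w k})ᗮ : Submodule ℝ (E ι)) : Set (E ι)) = 0 := by
        refine Measure.addHaar_submodule (volume : Measure (E ι)) _ fun htop => ?_
        have h1 : w k ∈ (Submodule.span ℝ {w k})ᗮ := by rw [htop]; trivial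
        rw [Submodule.mem_orthogonal_singleton_iff_inner_right] at h1
        exact hk (inner_self_eq_zero.1 h1)
      have h2 : ∀ᵐ z : E ι, z ∉ (((Submodule.span ℝ {w k})ᗮ : Submodule ℝ (E ι)) : Set (E ι)) :=
        measure_eq_zero_iff_ae_notMem.1 hs
      filter_upwards [h2] with z hz _ h3
      exact hz ((Submodule.mem_orthogonal_singleton_iff_inner_right).2 h3)
  have hd := Measure.dense_of_ae hae
  obtain ⟨z, hz, hzU⟩ := hd.inter_open_nonempty U hU hne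
  exact ⟨z, hz, hzU⟩

lemma ev_small {N : ℕ} (a b : Fin N → ℝ) :
    ∀ᶠ δ : ℝ in 𝓝[>] 0, ∀ k, a k < 0 → a k + δ * b k < 0 := by
  rw [eventually_all]
  intro k
  by_cases hk : a k < 0
  · have ht : Tendsto (fun δ : ℝ => a k + δ * b k) (𝓝 0) (𝓝 (a k + 0 * b k)) :=
      tendsto_const_nhds.add (tendsto_id.mul_const _)
    rw [zero_mul, add_zero] at ht
    filter_upwards [(ht.eventually (gt_mem_nhds hk)).filter_mono nhdsWithin_le_nhds] with δ hδ _
    exact hδ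
  · exact Eventually.of_forall fun δ h => absurd h hk

lemma ev_sign {N : ℕ} (a b : Fin N → ℝ) :
    ∀ᶠ δ : ℝ in 𝓝[>] 0, ∀ k, a k ≠ 0 → 0 < a k * (a k + δ * b k) := by
  rw [eventually_all]
  intro k
  by_cases hk : a k = 0
  · exact Eventually.of_forall fun δ h => absurd hk h
  · have ht : Tendsto (fun δ : ℝ => a k * (a k + δ * b k)) (𝓝 0) (𝓝 (a k * (a k + 0 * b k))) :=
      tendsto_const_nhds.mul (tendsto_const_nhds.add (tendsto_id.mul_const _))
    rw [zero_mul, add_zero] at ht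
    filter_upwards [(ht.eventually (lt_mem_nhds (mul_self_pos.2 hk))).filter_mono
      nhdsWithin_le_nhds] with δ hδ _
    exact hδ

/-- the tiles different from `0` do not meet the tangent cone -/
lemma null_other (hG1 : S_G1) (Q : HP ι) (hQ : Q.Good) (ν : Measure (E ι)) (hν : WTile Q.body ν)
    (v z : E ι) (hv : v ∈ Q.body) (hz : ∀ k, ⟪Q.u k, z⟫_ℝ ≠ 0) (hzv : z ∈ Q.cone v) :
    ν {t | t ≠ 0 ∧ v - t ∈ Q.body ∧ z ∈ Q.cone (v - t)} = 0 := by
  obtain ⟨hlf, htile, h0⟩ := hν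
  have h1 := hG1 ι Q hQ ν hlf htile v z hz
  have hsub : ({0} : Set (E ι)) ⊆ {t | v - t ∈ Q.body ∧ z ∈ Q.cone (v - t)} := by
    intro t ht
    rw [mem_singleton_iff] at ht
    subst ht
    show v - 0 ∈ Q.body ∧ z ∈ Q.cone (v - 0)
    rw [sub_zero]
    exact ⟨hv, hzv⟩
  have hfin : ν ({0} : Set (E ι)) ≠ ∞ := by
    refine ne_of_lt (lt_of_le_of_lt (measure_mono hsub) ?_)
    rw [h1]; exact ENNReal.one_lt_top
  have h2 := measure_sdiff hsub (measurableSet_singleton (0 : E ι)).nullMeasurableSet hfin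
  have h3 : ν ({t | v - t ∈ Q.body ∧ z ∈ Q.cone (v - t)} \ {0}) = 0 := by
    rw [h2, h1]
    exact tsub_eq_zero_of_le h0
  refine measure_mono_null ?_ h3
  rintro t ⟨ht0, ht1, ht2⟩
  exact ⟨⟨ht1, ht2⟩, ht0⟩

theorem main (hG1 : S_G1) (hG2 : S_G2) : S_G3 := by
  intro ι _ Q hQ ν hν i tF hL
  obtain ⟨hlf, htile, h0⟩ := id hν
  obtain ⟨⟨f0, hf0, hf0a⟩, hL2, v, hv, hiv, hvert, εL, hεL, hsix⟩ := hL
  have hui : Q.u i ≠ 0 := hQ.2.1 i
  have hn : 0 < ⟪Q.u i, Q.u i⟫_ℝ := real_inner_self_pos.2 hui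
  set c : Fin Q.N → ℝ := fun k => ⟪Q.u k, Q.u i⟫_ℝ / ⟪Q.u i, Q.u i⟫_ℝ with hc
  set w : Fin Q.N → E ι := fun k => Q.u k - c k • Q.u i with hw
  have hw1 : ∀ k (x : E ι), ⟪w k, x⟫_ℝ = ⟪Q.u k, x⟫_ℝ - c k * ⟪Q.u i, x⟫_ℝ := by
    intro k x
    rw [hw]
    simp only [inner_sub_left, inner_smul_left, RCLike.conj_to_real]
  have hf0v : ⟪Q.u i, f0 - v⟫_ℝ = 0 := by
    have h1 : ⟪Q.u i, f0⟫_ℝ = Q.h i := (hf0a i).2 rfl
    have h2 : ⟪Q.u i, v⟫_ℝ = Q.h i := hiv
    rw [inner_sub_right, h1, h2, sub_self]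
  -- the vector f
  obtain ⟨g0, hg0U, hg0⟩ := gen w {g | ∀ j ∈ Q.act v, j ≠ i → ⟪w j, g⟫_ℝ < 0} (by
      have : {g | ∀ j ∈ Q.act v, j ≠ i → ⟪w j, g⟫_ℝ < 0} =
          ⋂ j : Fin Q.N, {g | j ∈ Q.act v → j ≠ i → ⟪w j, g⟫_ℝ < 0} := by
        ext x; simp
      rw [this]
      refine isOpen_iInter_of_finite fun j => ?_
      by_cases hj : j ∈ Q.act v ∧ j ≠ i
      · have : {g | j ∈ Q.act v → j ≠ i → ⟪w j, g⟫_ℝ < 0} = {g | ⟪w j, g⟫_ℝ < 0} := by
          ext x; exact ⟨fun h => h hj.1 hj.2, fun h _ _ => h⟩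
        rw [this]
        exact isOpen_lt (inner_continuous _) continuous_const
      · have : {g : E ι | j ∈ Q.act v → j ≠ i → ⟪w j, g⟫_ℝ < 0} = univ := by
          ext x; exact ⟨fun _ => trivial, fun _ h1 h2 => absurd ⟨h1, h2⟩ hj⟩
        rw [this]
        exact isOpen_univ) ⟨f0 - v, fun j hj hji => by
      rw [hw1, hf0v, mul_zero, sub_zero, inner_sub_right]
      have h1 : ⟪Q.u j, f0⟫_ℝ ≤ Q.h j := hf0 j
      have h2 : ⟪Q.u j, f0⟫_ℝ ≠ Q.h j := fun h => hji ((hf0a j).1 h)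
      have h3 : ⟪Q.u j, v⟫_ℝ = Q.h j := hj
      have h4 := lt_of_le_of_ne h1 h2
      linarith⟩
  set f : E ι := g0 - (⟪Q.u i, g0⟫_ℝ / ⟪Q.u i, Q.u i⟫_ℝ) • Q.u i with hfdef
  have hf : ∀ k, ⟪Q.u k, f⟫_ℝ = ⟪w k, g0⟫_ℝ := by
    intro k
    rw [hw1, hfdef, inner_sub_right, inner_smul_right, hc]
    ring
  have hf1 : ⟪Q.u i, f⟫_ℝ = 0 := by
    rw [hfdef, inner_sub_right, inner_smul_right]
    field_simp
    ring
  have hfj : ∀ j ∈ Q.act v, j ≠ i → ⟪Q.u j, f⟫_ℝ < 0 := by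
    intro j hj hji
    rw [hf]
    exact hg0U j hj hji
  have hfk : ∀ k, ⟪Q.u k, f⟫_ℝ = 0 → Q.u k = c k • Q.u i := by
    intro k hk
    rw [hf] at hk
    by_contra hne
    exact hg0 k (fun h => hne (sub_eq_zero.1 h)) hk
  -- epsilon
  obtain ⟨ε, hεk, hε⟩ : ∃ ε : ℝ, (∀ k, ⟪Q.u k, f⟫_ℝ ≠ 0 →
      0 < ⟪Q.u k, f⟫_ℝ * (⟪Q.u k, f⟫_ℝ + ε * ⟪Q.u k, Q.u i⟫_ℝ)) ∧ 0 < ε :=
    ((ev_sign (fun k => ⟪Q.u k, f⟫_ℝ) (fun k => ⟪Q.u k, Q.u i⟫_ℝ)).and
      self_mem_nhdsWithin).exists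
  set uA : E ι := f + ε • Q.u i with huA
  have huAk : ∀ k, ⟪Q.u k, uA⟫_ℝ = ⟪Q.u k, f⟫_ℝ + ε * ⟪Q.u k, Q.u i⟫_ℝ := by
    intro k
    rw [huA, inner_add_right, inner_smul_right]
  have huA1 : 0 < ⟪Q.u i, uA⟫_ℝ := by
    rw [huAk, hf1, zero_add]
    exact mul_pos hε hn
  have hck : ∀ k, ⟪Q.u k, f⟫_ℝ = 0 → c k ≠ 0 := by
    intro k hk h
    have := hfk k hk
    rw [h, zero_smul] at this
    exact hQ.2.1 k this
  have huAc : ∀ k, ⟪Q.u k, f⟫_ℝ = 0 → ⟪Q.u k, uA⟫_ℝ = c k * ⟪Q.u i, uA⟫_ℝ := by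
    intro k hk
    rw [hfk k hk, inner_smul_left]
    simp
  have huAne : ∀ k, ⟪Q.u k, uA⟫_ℝ ≠ 0 := by
    intro k h
    by_cases hk : ⟪Q.u k, f⟫_ℝ = 0
    · rw [huAc k hk] at h
      rcases mul_eq_zero.1 h with h | h
      · exact hck k hk h
      · exact huA1.ne' h
    · have := hεk k hk
      rw [← huAk, h, mul_zero] at this
      exact lt_irrefl _ this
  have hA := hG1 ι Q hQ ν hlf htile v uA huAne
  -- the classes are null sets
  have hcl : ∀ (I : Set (Fin Q.N)) (m : ℕ), uA ∈ Q.coneI I →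
      ν {t | t ≠ tF ∧ v - t ∈ Q.body ∧ Q.act (v - t) = I ∧
        ∀ k, k ∉ I → ⟪Q.u k, v - t⟫_ℝ + 1 / ((m : ℝ) + 1) < Q.h k} = 0 := by
    intro I m hI
    by_contra hne
    obtain ⟨t1, ht1F, ht1b, ht1I, ht1m⟩ := nonempty_of_measure_ne_zero hne
    have hno : ∀ z, (∀ k, ⟪Q.u k, z⟫_ℝ ≠ 0) → z ∈ Q.cone v → z ∉ Q.coneI I := by
      intro z hz hzv hzI
      apply hne
      refine measure_mono_null ?_ (null_other hG1 Q hQ ν hν v z hv hz hzv)
      rintro t ⟨-, htb, htI, -⟩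
      refine ⟨?_, htb, ?_⟩
      · rintro rfl
        rw [sub_zero] at htI
        have : i ∈ I := htI ▸ hiv
        exact absurd (hI i this) (not_le.2 huA1)
      · show z ∈ Q.coneI (Q.act (v - t))
        rw [htI]
        exact hzI
    have hfC : ∀ k ∈ I, ⟪Q.u k, f⟫_ℝ ≤ 0 := by
      intro k hk
      by_contra hcon
      push Not at hcon
      have h1 := hεk k hcon.ne'
      rw [← huAk] at h1
      have h2 : 0 < ⟪Q.u k, uA⟫_ℝ := (pos_iff_pos_of_mul_pos h1).1 hcon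
      exact absurd (hI k hk) (not_le.2 h2)
    obtain ⟨x0, hx0⟩ := hQ.2.2
    have hz0 : ∀ k ∈ I, ⟪Q.u k, x0 - (v - t1)⟫_ℝ < 0 := by
      intro k hk
      have h1 : ⟪Q.u k, v - t1⟫_ℝ = Q.h k := by
        have : k ∈ Q.act (v - t1) := ht1I ▸ hk
        exact this
      rw [inner_sub_right, h1]
      linarith [hx0 k]
    have hC1 : ∀ z ∈ Q.coneI I, 0 ≤ ⟪Q.u i, z⟫_ℝ := by
      intro z hz
      by_contra hcon
      push Not at hcon
      obtain ⟨δ, hδ1, hδ⟩ := ((ev_small (fun k => ⟪Q.u k, z⟫_ℝ)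
        (fun k => ⟪Q.u k, x0 - (v - t1)⟫_ℝ)).and self_mem_nhdsWithin).exists
      have hδ0 : (0 : ℝ) < δ := hδ
      set z' : E ι := z + δ • (x0 - (v - t1)) with hz'
      have hz'k : ∀ k, ⟪Q.u k, z'⟫_ℝ = ⟪Q.u k, z⟫_ℝ + δ * ⟪Q.u k, x0 - (v - t1)⟫_ℝ := by
        intro k
        rw [hz', inner_add_right, inner_smul_right]
      have hz'i : ⟪Q.u i, z'⟫_ℝ < 0 := by
        rw [hz'k]
        exact hδ1 i hcon
      have hz'I : ∀ k ∈ I, ⟪Q.u k, z'⟫_ℝ < 0 := by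
        intro k hk
        rw [hz'k]
        have h1 : ⟪Q.u k, z⟫_ℝ ≤ 0 := hz k hk
        have h2 := mul_neg_of_pos_of_neg hδ0 (hz0 k hk)
        linarith
      obtain ⟨δ', hδ'1, hδ'⟩ := ((ev_small (fun k => ⟪Q.u k, f⟫_ℝ)
        (fun k => ⟪Q.u k, z'⟫_ℝ)).and self_mem_nhdsWithin).exists
      have hδ'0 : (0 : ℝ) < δ' := hδ'
      obtain ⟨z2, hz2U, hz2⟩ := gen Q.u {y | ∀ k, (k ∈ I ∨ k ∈ Q.act v) → ⟪Q.u k, y⟫_ℝ < 0} (by
          have : {y | ∀ k, (k ∈ I ∨ k ∈ Q.act v) → ⟪Q.u k, y⟫_ℝ < 0} =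
              ⋂ k : Fin Q.N, {y | (k ∈ I ∨ k ∈ Q.act v) → ⟪Q.u k, y⟫_ℝ < 0} := by
            ext x; simp
          rw [this]
          refine isOpen_iInter_of_finite fun k => ?_
          by_cases hk : k ∈ I ∨ k ∈ Q.act v
          · have : {y | (k ∈ I ∨ k ∈ Q.act v) → ⟪Q.u k, y⟫_ℝ < 0} = {y | ⟪Q.u k, y⟫_ℝ < 0} := by
              ext x; exact ⟨fun h => h hk, fun h _ => h⟩
            rw [this]
            exact isOpen_lt (inner_continuous _) continuous_const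
          · have : {y : E ι | (k ∈ I ∨ k ∈ Q.act v) → ⟪Q.u k, y⟫_ℝ < 0} = univ := by
              ext x; exact ⟨fun _ => trivial, fun _ h1 => absurd h1 hk⟩
            rw [this]
            exact isOpen_univ) ⟨f + δ' • z', fun k hk => by
          rw [inner_add_right, inner_smul_right]
          rcases hk with hk | hk
          · have h1 := hfC k hk
            have h2 := mul_neg_of_pos_of_neg hδ'0 (hz'I k hk)
            linarith
          · by_cases hki : k = i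
            · subst hki
              rw [hf1, zero_add]
              exact mul_neg_of_pos_of_neg hδ'0 hz'i
            · exact hδ'1 k (hfj k hk hki)⟩
      exact hno z2 (fun k => hz2 k (hQ.2.1 k)) (fun k hk => (hz2U k (Or.inr hk)).le)
        (fun k hk => (hz2U k (Or.inl hk)).le)
    have hmin : ∀ t, v - t ∈ Q.body → Q.act (v - t) = I → ∀ x ∈ Q.body,
        ⟪Q.u i, v - t⟫_ℝ ≤ ⟪Q.u i, x⟫_ℝ := by
      intro t _ htI x hx
      have h1 : x - (v - t) ∈ Q.coneI I := by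
        intro k hk
        have h2 : ⟪Q.u k, v - t⟫_ℝ = Q.h k := by
          have : k ∈ Q.act (v - t) := htI ▸ hk
          exact this
        rw [inner_sub_right, h2]
        linarith [hx k]
      have h3 := hC1 _ h1
      rw [inner_sub_right] at h3
      linarith
    by_cases hT : ∀ z ∈ Q.coneI I, ⟪Q.u i, z⟫_ℝ = 0 → ∀ j ∈ Q.act v, ⟪Q.u j, z⟫_ℝ ≤ 0
    · -- case A
      obtain ⟨hw1, hw2⟩ := (hL2 v).1 ⟨hv, hiv⟩
      have hm1 := hmin t1 ht1b ht1I
      have hz1 : t1 - tF ∈ Q.coneI I := by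
        intro k hk
        have h2 : ⟪Q.u k, v - t1⟫_ℝ = Q.h k := by
          have : k ∈ Q.act (v - t1) := ht1I ▸ hk
          exact this
        have h3 : ⟪Q.u k, v - tF⟫_ℝ ≤ Q.h k := hw1 k
        rw [inner_sub_right] at h2 h3 ⊢
        linarith
      have hz2 : ⟪Q.u i, t1 - tF⟫_ℝ = 0 := by
        have h1 := hm1 _ hw1
        have h2 := hw2 _ ht1b
        rw [inner_sub_right] at h1 h2 ⊢
        rw [inner_sub_right] at h1 h2
        linarith
      have hz3 := hT _ hz1 hz2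
      obtain ⟨hb, -⟩ := (hL2 (v - t1 + tF)).2 (by
        rw [add_sub_cancel_right]
        exact ⟨ht1b, hm1⟩)
      have hz4 : ∀ j ∈ Q.act v, ⟪Q.u j, t1 - tF⟫_ℝ = 0 := by
        intro j hj
        refine le_antisymm (hz3 j hj) ?_
        have h1 : ⟪Q.u j, v - t1 + tF⟫_ℝ ≤ Q.h j := hb j
        have h2 : ⟪Q.u j, v⟫_ℝ = Q.h j := hj
        rw [inner_add_right, inner_sub_right] at h1
        rw [inner_sub_right]
        linarith
      exact ht1F (sub_eq_zero.1 (hvert _ hz4))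
    · -- case B
      push Not at hT
      obtain ⟨z, hzI, hzi, j1, hj1, hj1z⟩ := hT
      classical
      -- the minimal time
      obtain ⟨j0, hj0, hj0min⟩ := Finset.exists_min_image
        (Finset.univ.filter fun j => j ∈ Q.act v ∧ 0 < ⟪Q.u j, z⟫_ℝ)
        (fun j => -⟪Q.u j, f⟫_ℝ / ⟪Q.u j, z⟫_ℝ) ⟨j1, by simp [hj1, hj1z]⟩
      rw [Finset.mem_filter] at hj0
      obtain ⟨-, hj0v, hj0z⟩ := hj0
      have hj0i : j0 ≠ i := by
        rintro rfl
        exact hj0z.ne' hzi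
      set τ : ℝ := -⟪Q.u j0, f⟫_ℝ / ⟪Q.u j0, z⟫_ℝ with hτ
      have hτ0 : 0 < τ := div_pos (neg_pos.2 (hfj j0 hj0v hj0i)) hj0z
      set e : E ι := f + τ • z with he
      have hek : ∀ k, ⟪Q.u k, e⟫_ℝ = ⟪Q.u k, f⟫_ℝ + τ * ⟪Q.u k, z⟫_ℝ := by
        intro k
        rw [he, inner_add_right, inner_smul_right]
      have hei : ⟪Q.u i, e⟫_ℝ = 0 := by rw [hek, hf1, hzi]; ring
      have hej0 : ⟪Q.u j0, e⟫_ℝ = 0 := by
        rw [hek, hτ]
        field_simp
        ring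
      have hev : ∀ j ∈ Q.act v, ⟪Q.u j, e⟫_ℝ ≤ 0 := by
        intro j hj
        by_cases hji : j = i
        · subst hji; exact hei.le
        · rw [hek]
          have h1 := hfj j hj hji
          rcases le_or_gt ⟪Q.u j, z⟫_ℝ 0 with h2 | h2
          · have := mul_nonpos_of_nonneg_of_nonpos hτ0.le h2
            linarith
          · have h3 : τ ≤ -⟪Q.u j, f⟫_ℝ / ⟪Q.u j, z⟫_ℝ := hj0min j (by simp [hj, h2])
            rw [le_div_iff₀ h2] at h3
            linarith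
      have heI : ∀ k ∈ I, ⟪Q.u k, f⟫_ℝ ≠ 0 → ⟪Q.u k, e⟫_ℝ < 0 := by
        intro k hk hk0
        rw [hek]
        have h1 := lt_of_le_of_ne (hfC k hk) hk0
        have h2 := mul_nonpos_of_nonneg_of_nonpos hτ0.le (hzI k hk)
        linarith
      -- delta
      have hm : (0 : ℝ) < 1 / ((m : ℝ) + 1) := by positivity
      obtain ⟨δ, ⟨⟨hδ1, hδ2⟩, hδ3⟩, hδ⟩ := (((((ev_small (fun k => ⟪Q.u k, v⟫_ℝ - Q.h k)
        (fun k => ⟪Q.u k, e⟫_ℝ))).and
        (ev_small (N := 1) (fun _ => -εL) (fun _ => ‖e‖))).and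
        (ev_small (fun _ => -(1 / ((m : ℝ) + 1) / 2))
          (fun k => |⟪Q.u k, e⟫_ℝ|))).and self_mem_nhdsWithin).exists
      have hδ0 : (0 : ℝ) < δ := hδ
      have hδ2' : δ * ‖e‖ < εL := by
        have := hδ2 0 (by linarith)
        linarith
      have hδ3' : ∀ k, δ * |⟪Q.u k, e⟫_ℝ| < 1 / ((m : ℝ) + 1) / 2 := by
        intro k
        have := hδ3 k (by linarith)
        linarith
      -- eta
      obtain ⟨η, ⟨hη1, hη2⟩, hη⟩ := (((ev_small (fun k => δ * ⟪Q.u k, e⟫_ℝ)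
        (fun k => ‖Q.u k‖)).and
        (ev_small (fun _ => -(1 / ((m : ℝ) + 1) / 2)) (fun k => ‖Q.u k‖))).and
        self_mem_nhdsWithin).exists
      have hη0 : (0 : ℝ) < η := hη
      have hη2' : ∀ k, η * ‖Q.u k‖ < 1 / ((m : ℝ) + 1) / 2 := by
        intro k
        have := hη2 k (by linarith)
        linarith
      -- the point s = v + δ e
      have hsb : v + δ • e ∈ Q.body := by
        intro k
        rw [inner_add_right, inner_smul_right]
        by_cases hk : ⟪Q.u k, v⟫_ℝ = Q.h k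
        · have h1 := mul_nonpos_of_nonneg_of_nonpos hδ0.le (hev k hk)
          linarith
        · have h1 : ⟪Q.u k, v⟫_ℝ ≤ Q.h k := hv k
          have h2 := hδ1 k (by
            have := lt_of_le_of_ne h1 hk
            linarith)
          linarith
      have hsi : i ∈ Q.act (v + δ • e) := by
        show ⟪Q.u i, v + δ • e⟫_ℝ = Q.h i
        have h1 : ⟪Q.u i, v⟫_ℝ = Q.h i := hiv
        rw [inner_add_right, inner_smul_right, hei, h1]; ring
      have hsj : j0 ∈ Q.act (v + δ • e) := by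
        show ⟪Q.u j0, v + δ • e⟫_ℝ = Q.h j0
        have h1 : ⟪Q.u j0, v⟫_ℝ = Q.h j0 := hj0v
        rw [inner_add_right, inner_smul_right, hej0, h1]; ring
      obtain ⟨p, hpn, hpi, hp6⟩ := hsix (v + δ • e) hsb hsi (by
        rw [add_sub_cancel_left, norm_smul, Real.norm_eq_abs, abs_of_pos hδ0]
        exact hδ2') ⟨j0, hj0i, hsj⟩ η hη0
      have hnull := hG2 ι Q hQ ν hν i p hp6
      apply hne
      refine measure_mono_null ?_ hnull
      rintro t ⟨-, htb, htI, htm⟩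
      have hdec : ∀ k, ⟪Q.u k, p - t⟫_ℝ = ⟪Q.u k, v - t⟫_ℝ + δ * ⟪Q.u k, e⟫_ℝ +
          ⟪Q.u k, p - (v + δ • e)⟫_ℝ := by
        intro k
        simp only [inner_sub_right, inner_add_right, inner_smul_right]
        ring
      have hr : ∀ k, ⟪Q.u k, p - (v + δ • e)⟫_ℝ ≤ η * ‖Q.u k‖ := by
        intro k
        calc ⟪Q.u k, p - (v + δ • e)⟫_ℝ ≤ ‖Q.u k‖ * ‖p - (v + δ • e)‖ := real_inner_le_norm _ _
          _ ≤ ‖Q.u k‖ * η := by
            exact mul_le_mul_of_nonneg_left hpn.le (norm_nonneg _)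
          _ = η * ‖Q.u k‖ := mul_comm _ _
      have hp1 : ⟪Q.u i, p⟫_ℝ = Q.h i := hpi
      have hv1 : ⟪Q.u i, v⟫_ℝ = Q.h i := hiv
      have hpv : ⟪Q.u i, p - v⟫_ℝ = 0 := by rw [inner_sub_right, hp1, hv1, sub_self]
      have hk1 : ∀ k, k ∉ I → ⟪Q.u k, p - t⟫_ℝ < Q.h k := by
        intro k hk
        rw [hdec]
        have h1 := htm k hk
        have h2 := hδ3' k
        have h3 := hη2' k
        have h4 := hr k
        have h5 : δ * ⟪Q.u k, e⟫_ℝ ≤ δ * |⟪Q.u k, e⟫_ℝ| :=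
          mul_le_mul_of_nonneg_left (le_abs_self _) hδ0.le
        linarith
      have hact : ∀ k ∈ I, ⟪Q.u k, v - t⟫_ℝ = Q.h k := by
        intro k hk
        have : k ∈ Q.act (v - t) := htI ▸ hk
        exact this
      have hk2 : ∀ k ∈ I, ⟪Q.u k, f⟫_ℝ ≠ 0 → ⟪Q.u k, p - t⟫_ℝ < Q.h k := by
        intro k hk hk0
        rw [hdec, hact k hk]
        have h1 := hη1 k (mul_neg_of_pos_of_neg hδ0 (heI k hk hk0))
        have h2 := hr k
        linarith
      have hk3 : ∀ k ∈ I, ⟪Q.u k, f⟫_ℝ = 0 → ⟪Q.u k, p - t⟫_ℝ = Q.h k := by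
        intro k hk hk0
        have h1 : p - t = (v - t) + (p - v) := by abel
        have h2 : ⟪Q.u k, p - v⟫_ℝ = 0 := by
          rw [hfk k hk0, inner_smul_left, hpv, mul_zero]
        rw [h1, inner_add_right, h2, add_zero]
        exact hact k hk
      have hcneg : ∀ k ∈ I, ⟪Q.u k, f⟫_ℝ = 0 → c k < 0 := by
        intro k hk hk0
        have h1 := hI k hk
        rw [huAc k hk0] at h1
        rcases lt_trichotomy (c k) 0 with h | h | h
        · exact h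
        · exact absurd h (hck k hk0)
        · exact absurd h1 (not_le.2 (mul_pos h huA1))
      have hpb : p - t ∈ Q.body := by
        intro k
        by_cases hk : k ∈ I
        · by_cases hk0 : ⟪Q.u k, f⟫_ℝ = 0
          · exact (hk3 k hk hk0).le
          · exact (hk2 k hk hk0).le
        · exact (hk1 k hk).le
      refine ⟨hpb, ?_⟩
      -- some inequality is active
      have hex : ∃ k ∈ I, ⟪Q.u k, f⟫_ℝ = 0 := by
        by_contra hcon
        push Not at hcon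
        have hall : ∀ k, ⟪Q.u k, p - t⟫_ℝ < Q.h k := by
          intro k
          by_cases hk : k ∈ I
          · exact hk2 k hk (hcon k hk)
          · exact hk1 k hk
        obtain ⟨ρ, hρ1, hρ⟩ := ((ev_small (fun k => ⟪Q.u k, p - t⟫_ℝ - Q.h k)
          (fun k => -⟪Q.u k, Q.u i⟫_ℝ)).and self_mem_nhdsWithin).exists
        have hρ0 : (0 : ℝ) < ρ := hρ
        have hb : p - t - ρ • Q.u i ∈ Q.body := by
          intro k
          rw [inner_sub_right, inner_smul_right]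
          have := hρ1 k (by linarith [hall k])
          linarith
        have h1 := hmin t htb htI _ hb
        have h2 : ⟪Q.u i, p - t - ρ • Q.u i⟫_ℝ = ⟪Q.u i, v - t⟫_ℝ - ρ * ⟪Q.u i, Q.u i⟫_ℝ := by
          have h3 : p - t = (v - t) + (p - v) := by abel
          rw [inner_sub_right, inner_smul_right, h3, inner_add_right, hpv, add_zero]
        rw [h2] at h1
        have := mul_pos hρ0 hn
        linarith
      have hactp : ∀ k, k ∈ Q.act (p - t) → k ∈ I ∧ ⟪Q.u k, f⟫_ℝ = 0 := by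
        intro k hk
        have hk' : ⟪Q.u k, p - t⟫_ℝ = Q.h k := hk
        by_cases hkI : k ∈ I
        · refine ⟨hkI, ?_⟩
          by_contra hk0
          exact (hk2 k hkI hk0).ne hk'
        · exact absurd hk' (hk1 k hkI).ne
      ext x
      constructor
      · intro hx
        obtain ⟨k, hkI, hk0⟩ := hex
        have h1 : ⟪Q.u k, x⟫_ℝ ≤ 0 := hx k (hk3 k hkI hk0)
        rw [hfk k hk0, inner_smul_left] at h1
        simp only [RCLike.conj_to_real] at h1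
        show 0 ≤ ⟪Q.u i, x⟫_ℝ
        by_contra hcon
        push Not at hcon
        exact absurd h1 (not_le.2 (mul_pos_of_neg_of_neg (hcneg k hkI hk0) hcon))
      · intro hx k hk
        obtain ⟨hkI, hk0⟩ := hactp k hk
        rw [hfk k hk0, inner_smul_left]
        simp only [RCLike.conj_to_real]
        exact mul_nonpos_of_nonpos_of_nonneg (hcneg k hkI hk0).le hx
  -- conclusion
  have hdiff : ν ({t | v - t ∈ Q.body ∧ uA ∈ Q.cone (v - t)} \ {tF}) = 0 := by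
    have hsub : ({t | v - t ∈ Q.body ∧ uA ∈ Q.cone (v - t)} \ {tF}) ⊆
        ⋃ (I : Set (Fin Q.N)), ⋃ (m : ℕ), {t | uA ∈ Q.coneI I ∧ t ≠ tF ∧ v - t ∈ Q.body ∧
          Q.act (v - t) = I ∧ ∀ k, k ∉ I → ⟪Q.u k, v - t⟫_ℝ + 1 / ((m : ℝ) + 1) < Q.h k} := by
      rintro t ⟨⟨htb, htu⟩, htF⟩
      rw [mem_iUnion]
      refine ⟨Q.act (v - t), ?_⟩
      rw [mem_iUnion]
      have hev : ∀ᶠ m : ℕ in atTop, ∀ k, k ∉ Q.act (v - t) →
          ⟪Q.u k, v - t⟫_ℝ + 1 / ((m : ℝ) + 1) < Q.h k := by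
        rw [eventually_all]
        intro k
        by_cases hk : k ∈ Q.act (v - t)
        · exact Eventually.of_forall fun m h => absurd hk h
        · have h1 : ⟪Q.u k, v - t⟫_ℝ < Q.h k := lt_of_le_of_ne (htb k) hk
          have ht : Tendsto (fun m : ℕ => ⟪Q.u k, v - t⟫_ℝ + 1 / ((m : ℝ) + 1)) atTop
              (𝓝 (⟪Q.u k, v - t⟫_ℝ + 0)) :=
            tendsto_const_nhds.add tendsto_one_div_add_atTop_nhds_zero_nat
          rw [add_zero] at ht
          filter_upwards [ht.eventually (gt_mem_nhds h1)] with m hm _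
          exact hm
      obtain ⟨m, hm⟩ := hev.exists
      exact ⟨m, htu, htF, htb, rfl, hm⟩
    refine measure_mono_null hsub ?_
    rw [measure_iUnion_null_iff]
    intro I
    rw [measure_iUnion_null_iff]
    intro m
    by_cases hI : uA ∈ Q.coneI I
    · refine measure_mono_null ?_ (hcl I m hI)
      rintro t ⟨-, h⟩
      exact h
    · refine measure_mono_null (t := ∅) ?_ measure_empty
      rintro t ⟨h, -⟩
      exact absurd h hI
  calc (1 : ℝ≥0∞) = ν {t | v - t ∈ Q.body ∧ uA ∈ Q.cone (v - t)} := hA.symm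
    _ ≤ ν ({tF} ∪ ({t | v - t ∈ Q.body ∧ uA ∈ Q.cone (v - t)} \ {tF})) := by
        refine measure_mono fun t ht => ?_
        by_cases h : t = tF
        · exact Or.inl h
        · exact Or.inr ⟨ht, h⟩
    _ ≤ ν {tF} + ν ({t | v - t ∈ Q.body ∧ uA ∈ Q.cone (v - t)} \ {tF}) := measure_union_le _ _
    _ = ν {tF} := by rw [hdiff, add_zero]

end Pool.Agent.Helper97.SPX.G3
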